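import Pool.Agent.Helper7.OV.Goals1

set_option autoImplicit false

namespace Pool.Agent.Helper37.OV.ODE

open Pool.Agent.Helper7.OV

/-- extension of `al` by zero -/
def Al (i : ℤ) : ℚ := if 0 ≤ i then al i.toNat else 0

/-- extension of `be` by zero -/
def Be (i : ℤ) : ℚ := if 0 ≤ i then be i.toNat else 0

theorem al_succ (i : ℕ) : 2 * ((i : ℚ) + 1) * al (i + 1) = (2 * (i : ℚ) - 1) * al i := by
  have h := Nat.succ_mul_centralBinom_succ i
  have h' : ((i : ℚ) + 1) * (Nat.centralBinom (i + 1) : ℚ) = 2 * (2 * (i : ℚ) + 1) * (Nat.centralBinom i : ℚ) := by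
    exact_mod_cast h
  unfold al
  have e1 : (1 - 2 * (((i + 1 : ℕ) : ℚ))) ≠ 0 := by
    have : (0 : ℚ) ≤ (i : ℚ) := Nat.cast_nonneg i
    push_cast
    intro h0
    linarith
  have e2 : (1 - 2 * (i : ℚ)) ≠ 0 := by
    intro h0
    have h1 : (1 : ℚ) = 2 * (i : ℚ) := by linarith
    have h2 : (1 : ℕ) = 2 * i := by exact_mod_cast h1
    omega
  have e3 : (4 : ℚ) ^ i ≠ 0 := by positivity
  push_cast at e1 ⊢
  rw [pow_succ]
  field_simp
  linear_combination (2 * (i : ℚ) - 1) * (-2) * h'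

theorem be_succ (i : ℕ) : 2 * ((i : ℚ) + 1) * be (i + 1) = (2 * (i : ℚ) + 1) * be i := by
  have h := Nat.succ_mul_centralBinom_succ i
  have h' : ((i : ℚ) + 1) * (Nat.centralBinom (i + 1) : ℚ) = 2 * (2 * (i : ℚ) + 1) * (Nat.centralBinom i : ℚ) := by
    exact_mod_cast h
  unfold be
  have e3 : (4 : ℚ) ^ i ≠ 0 := by positivity
  rw [pow_succ]
  field_simp
  linear_combination 2 * h'

theorem Al_succ (i : ℤ) : 2 * ((i : ℚ) + 1) * Al (i + 1) = (2 * (i : ℚ) - 1) * Al i := by
  unfold Al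
  by_cases h : 0 ≤ i
  · obtain ⟨n, rfl⟩ := Int.eq_ofNat_of_zero_le h
    rw [if_pos h, if_pos (by omega)]
    have e : ((n : ℤ) + 1).toNat = n + 1 := by omega
    rw [e, Int.toNat_natCast]
    push_cast
    exact al_succ n
  · rw [if_neg h]
    by_cases h1 : i = -1
    · subst h1
      norm_num
    · rw [if_neg (by omega)]
      ring

theorem Be_succ (i : ℤ) : 2 * ((i : ℚ) + 1) * Be (i + 1) = (2 * (i : ℚ) + 1) * Be i := by
  unfold Be
  by_cases h : 0 ≤ i
  · obtain ⟨n, rfl⟩ := Int.eq_ofNat_of_zero_le h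
    rw [if_pos h, if_pos (by omega)]
    have e : ((n : ℤ) + 1).toNat = n + 1 := by omega
    rw [e, Int.toNat_natCast]
    push_cast
    exact be_succ n
  · rw [if_neg h]
    by_cases h1 : i = -1
    · subst h1
      norm_num
    · rw [if_neg (by omega)]
      ring

theorem fq_eq (k l : ℤ) : fq k l = Al (-k) * Be (k + l) := by
  unfold fq Al Be
  by_cases h1 : k ≤ 0
  · have h1' : 0 ≤ -k := by omega
    by_cases h2 : 0 ≤ k + l
    · simp [h1, h2]
    · simp [h2]
  · have h1' : ¬ (0 ≤ -k) := by omega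
    simp only [h1, h1', false_and, if_false, zero_mul]

theorem fp_eq (k l : ℤ) : fp k l = Al (-l) * Be (k + l) := by
  unfold fp Al Be
  by_cases h1 : l ≤ 0
  · have h1' : 0 ≤ -l := by omega
    by_cases h2 : 0 ≤ k + l
    · simp [h1, h2]
    · simp [h2]
  · have h1' : ¬ (0 ≤ -l) := by omega
    simp only [h1, h1', false_and, if_false, zero_mul]

theorem fi_eq (k l : ℤ) : fi k l = Al (-k) * Be (-l) := by
  unfold fi Al Be
  by_cases h1 : k ≤ 0
  · have h1' : 0 ≤ -k := by omega
    by_cases h2 : l ≤ 0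
    · have h2' : 0 ≤ -l := by omega
      simp [h1, h2]
    · have h2' : ¬ (0 ≤ -l) := by omega
      simp only [h1, h2, h2', and_false, if_false, mul_zero]
  · have h1' : ¬ (0 ≤ -k) := by omega
    simp only [h1, h1', false_and, if_false, zero_mul]

theorem t : S_ODE := by
  rintro ⟨hadd, -, -, hneg, hmul, -, hone, -, -, -, -, hXY⟩
  have hX : ∀ (m : Ser) (k l : ℤ), act XX m k l = m (k - 1) l := fun m k l => (hXY m k l).1
  have hY : ∀ (m : Ser) (k l : ℤ), act YY m k l = m k (l - 1) := fun m k l => (hXY m k l).2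
  have hadd' : ∀ (F G : P2) (m : Ser) (k l : ℤ), act (F + G) m k l = act F m k l + act G m k l := by
    intro F G m k l; rw [hadd]
  have hsub' : ∀ (F G : P2) (m : Ser) (k l : ℤ), act (F - G) m k l = act F m k l - act G m k l := by
    intro F G m k l; rw [sub_eq_add_neg, hadd, hneg]; ring
  have hone' : ∀ (m : Ser) (k l : ℤ), act 1 m k l = m k l := by
    intro m k l; rw [hone]
  have htwo : ∀ (m : Ser) (k l : ℤ), act 2 m k l = 2 * m k l := by
    intro m k l
    have e : (2 : P2) = 1 + 1 := by norm_num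
    rw [e, hadd', hone']; ring
  have hneg' : ∀ (F : P2) (m : Ser) (k l : ℤ), act (-F) m k l = - act F m k l := by
    intro F m k l; rw [hneg]
  -- the six basic identities
  have q1 : act (2 * (XX - YY)) (d1 fq) = act YY fq := by
    funext k l
    rw [hmul, htwo, hsub', hX, hY, hY]
    simp only [d1, fq_eq]
    have r1 := Al_succ (-k)
    have e1 : -(k - 1) = -k + 1 := by ring
    have e2 : k - 1 + l = k + (l - 1) := by ring
    rw [e1, e2]
    push_cast at r1 ⊢
    linear_combination (-Be (k + (l - 1))) * r1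
  have q2 : act (2 * (XX - YY) * (1 - YY)) (d2 fq) = act (YY * (XX - 1)) fq := by
    funext k l
    have e0 : (2 * (XX - YY) * (1 - YY) : P2) = 2 * (XX - YY - XX * YY + YY * YY) := by ring
    rw [e0, hmul, htwo, hadd', hsub', hsub', hmul, hmul, hmul, hX, hY, hX, hY, hY, hY, hY, hsub', hX, hone']
    simp only [d2, fq_eq]
    have r1 := Al_succ (-k)
    have r2 := Be_succ (k + l - 2)
    have e1 : -(k - 1) = -k + 1 := by ring
    have e2 : k - 1 + l = k + l - 2 + 1 := by ring
    have e3 : k + (l - 1) = k + l - 2 + 1 := by ring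
    have e4 : k - 1 + (l - 1) = k + l - 2 := by ring
    have e5 : k + (l - 1 - 1) = k + l - 2 := by ring
    rw [e1, e2, e3, e4, e5]
    push_cast at r1 r2 ⊢
    linear_combination (Be (k + l - 2 + 1) - Be (k + l - 2)) * r1 + (Al (-k + 1) - Al (-k)) * r2
  have p1 : act (2 * (XX - YY) * (1 - XX)) (d1 fp) = act (XX * (1 - YY)) fp := by
    funext k l
    have e0 : (2 * (XX - YY) * (1 - XX) : P2) = 2 * (XX - YY - XX * XX + YY * XX) := by ring
    rw [e0, hmul, htwo, hadd', hsub', hsub', hmul, hmul, hmul, hX, hY, hX, hX, hY, hX, hX, hsub', hY, hone']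
    simp only [d1, fp_eq]
    have r1 := Al_succ (-l)
    have r2 := Be_succ (k + l - 2)
    have e1 : -(l - 1) = -l + 1 := by ring
    have e2 : k - 1 + l = k + l - 2 + 1 := by ring
    have e3 : k + (l - 1) = k + l - 2 + 1 := by ring
    have e4 : k - 1 + (l - 1) = k + l - 2 := by ring
    have e5 : k - 1 - 1 + l = k + l - 2 := by ring
    rw [e1, e2, e3, e4, e5]
    push_cast at r1 r2 ⊢
    linear_combination (-(Be (k + l - 2 + 1) - Be (k + l - 2))) * r1 - (Al (-l + 1) - Al (-l)) * r2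
  have p2 : act (2 * (XX - YY)) (d2 fp) = act (-XX) fp := by
    funext k l
    rw [hmul, htwo, hsub', hX, hY, hneg', hX]
    simp only [d2, fp_eq]
    have r1 := Al_succ (-l)
    have e1 : -(l - 1) = -l + 1 := by ring
    have e2 : k - 1 + l = k + (l - 1) := by ring
    rw [e1, e2]
    push_cast at r1 ⊢
    linear_combination (Be (k + (l - 1))) * r1
  have i1 : act (2 * (1 - XX)) (d1 fi) = act (-1) fi := by
    funext k l
    rw [hmul, htwo, hsub', hX, hone', hneg', hone']
    simp only [d1, fi_eq]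
    have r1 := Al_succ (-k)
    have e1 : -(k - 1) = -k + 1 := by ring
    rw [e1]
    push_cast at r1 ⊢
    linear_combination (Be (-l)) * r1
  have i2 : act (2 * (1 - YY)) (d2 fi) = act 1 fi := by
    funext k l
    rw [hmul, htwo, hsub', hY, hone', hone']
    simp only [d2, fi_eq]
    have r1 := Be_succ (-l)
    have e1 : -(l - 1) = -l + 1 := by ring
    rw [e1]
    push_cast at r1 ⊢
    linear_combination (Al (-k)) * r1
  have t11 : th1 1 = YY * (1 - XX) * (1 - YY) := rfl
  have t12 : th1 2 = XX * (1 - YY) ^ 2 := rfl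
  have t21 : th2 1 = -(YY * (1 - XX) ^ 2) := rfl
  have t22 : th2 2 = -(XX * (1 - XX) * (1 - YY)) := rfl
  refine ⟨?_, ?_, ?_, ?_, ?_, ?_⟩
  · have e1 : EE = ((1 - XX) * (1 - YY)) * (2 * (XX - YY)) := by unfold EE; ring
    have e2 : th1 1 = ((1 - XX) * (1 - YY)) * YY := by rw [t11]; ring
    rw [e1, e2, hmul, q1, ← hmul]
  · have e1 : EE = (1 - XX) * (2 * (XX - YY) * (1 - YY)) := by unfold EE; ring
    have e2 : th2 1 = (1 - XX) * (YY * (XX - 1)) := by rw [t21]; ring
    rw [e1, e2, hmul, q2, ← hmul]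
  · have e1 : EE = (1 - YY) * (2 * (XX - YY) * (1 - XX)) := by unfold EE; ring
    have e2 : th1 2 = (1 - YY) * (XX * (1 - YY)) := by rw [t12]; ring
    rw [e1, e2, hmul, p1, ← hmul]
  · have e1 : EE = ((1 - XX) * (1 - YY)) * (2 * (XX - YY)) := by unfold EE; ring
    have e2 : th2 2 = ((1 - XX) * (1 - YY)) * (-XX) := by rw [t22]; ring
    rw [e1, e2, hmul, p2, ← hmul]
  · have e1 : EE = ((1 - YY) * (XX - YY)) * (2 * (1 - XX)) := by unfold EE; ring
    have e2 : th1 1 - th1 2 = ((1 - YY) * (XX - YY)) * (-1) := by rw [t11, t12]; ring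
    rw [e1, e2, hmul, i1, ← hmul]
  · have e1 : EE = ((1 - XX) * (XX - YY)) * (2 * (1 - YY)) := by unfold EE; ring
    have e2 : th2 1 - th2 2 = ((1 - XX) * (XX - YY)) * 1 := by rw [t21, t22]; ring
    rw [e1, e2, hmul, i2, ← hmul]

end Pool.Agent.Helper37.OV.ODE
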